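import Mathlib

/-!
Systems of polynomial equations with algebraic coefficients, and the addition of a variable which is
equal to a polynomial in the others.
-/

set_option autoImplicit false

namespace Pool.Agent.Q107.RF

open MvPolynomial

/-- the field of algebraic numbers -/
abbrev Qb : Type := AlgebraicClosure ℚ

/-- A polynomial: the list of its terms `(c, w)`; here `c` is the code of the coefficient, and `w` is
the list of the variables whose product is the monomial. -/
abbrev Poly : Type := List (ℕ × List ℕ)

/-- A system of equations: the number `n` of variables `x₀, …, x₍ₙ₋₁₎`, and a list of polynomials. -/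
abbrev Sys : Type := ℕ × List Poly

/-- the polynomial given by `f`, where `ν c` is the algebraic number with the code `c` -/
noncomputable def val (ν : ℕ → Qb) (f : Poly) : MvPolynomial ℕ Qb :=
  (f.map (fun t => C (ν t.1) * (t.2.map X).prod)).sum

/-- the polynomials of the system, and the variables which do not belong to it -/
def gens (ν : ℕ → Qb) (S : Sys) : Set (MvPolynomial ℕ Qb) :=
  {p | (∃ f ∈ S.2, p = val ν f) ∨ ∃ i, S.1 ≤ i ∧ p = X i}

/-- the coordinate ring: polynomials in `x₀, x₁, …` modulo the polynomials of the system and the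
variables `xᵢ`, `i ≥ n` -/
abbrev Coord (ν : ℕ → Qb) (S : Sys) : Type := MvPolynomial ℕ Qb ⧸ Ideal.span (gens ν S)

/-- the polynomials only contain the variables of the system -/
def Valid (S : Sys) : Prop := ∀ f ∈ S.2, ∀ t ∈ f, ∀ i ∈ t.2, i < S.1

/-- the new polynomial: the new variable `x_n` plus the sum of the monomials `w` -/
def npoly (u n : ℕ) (E : List (List ℕ)) : Poly := (u, [n]) :: E.map (fun w => (u, w))

/-- one more variable and one more equation -/
def ext (u : ℕ) (S : Sys) (E : List (List ℕ)) : Sys := (S.1 + 1, npoly u S.1 E :: S.2)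

theorem aeval_val (ν : ℕ → Qb) (φ : ℕ → MvPolynomial ℕ Qb) (f : Poly)
    (h : ∀ t ∈ f, ∀ i ∈ t.2, φ i = X i) : aeval φ (val ν f) = val ν f := by
  unfold val
  rw [map_list_sum, List.map_map]
  congr 1
  refine List.map_congr_left (fun t ht => ?_)
  simp only [Function.comp, map_mul, algHom_C, map_list_prod, List.map_map]
  congr 2
  refine List.map_congr_left (fun i hi => ?_)
  simp only [Function.comp, aeval_X]
  exact h t ht i hi

theorem val_npoly {ν : ℕ → Qb} {u : ℕ} (hu : ν u = 1) (n : ℕ) (E : List (List ℕ)) :
    val ν (npoly u n E) = X n + val ν (E.map (fun w => (u, w))) := by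
  simp [val, npoly, hu]

/-- the change of variables `x_n ↦ x_n + g` -/
noncomputable def chg (n : ℕ) (g : MvPolynomial ℕ Qb) (i : ℕ) : MvPolynomial ℕ Qb :=
  if i = n then X n + g else X i

theorem aeval_chg_comp {n : ℕ} {g g' : MvPolynomial ℕ Qb} (hg' : aeval (chg n g) g' = g')
    (h : g + g' = 0) :
    (aeval (chg n g)).comp (aeval (chg n g')) = AlgHom.id Qb (MvPolynomial ℕ Qb) := by
  apply MvPolynomial.algHom_ext
  intro i
  rw [AlgHom.comp_apply, aeval_X, AlgHom.id_apply]
  by_cases hi : i = n
  · subst hi
    rw [chg, if_pos rfl, map_add, aeval_X, hg', chg, if_pos rfl, add_assoc, h, add_zero]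
  · rw [chg, if_neg hi, aeval_X, chg, if_neg hi]

/-- Adding a variable which is equal to a polynomial in the others does not change the coordinate
ring. -/
theorem ext_iso {ν : ℕ → Qb} {u : ℕ} (hu : ν u = 1) {S : Sys} (hS : Valid S) {E : List (List ℕ)}
    (hE : ∀ w ∈ E, ∀ i ∈ w, i < S.1) :
    Nonempty (Coord ν (ext u S E) ≃ₐ[Qb] Coord ν S) := by
  set n := S.1 with hn
  set g := val ν (E.map (fun w => (u, w))) with hg
  have hfix : ∀ (g₁ : MvPolynomial ℕ Qb), aeval (chg n g₁) g = g := by
    intro g₁
    refine aeval_val ν _ _ (fun t ht i hi => ?_)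
    rw [List.mem_map] at ht
    obtain ⟨q, hq, rfl⟩ := ht
    have hi' : i < n := hE q hq i hi
    rw [chg, if_neg (by omega)]
  let e : MvPolynomial ℕ Qb ≃ₐ[Qb] MvPolynomial ℕ Qb :=
    AlgEquiv.ofAlgHom (aeval (chg n g)) (aeval (chg n (-g)))
      (aeval_chg_comp (by rw [map_neg, hfix]) (add_neg_cancel g))
      (aeval_chg_comp (hfix _) (neg_add_cancel g))
  have he : ∀ p, e p = aeval (chg n g) p := fun p => rfl
  have himg : e '' gens ν S = gens ν (ext u S E) := by
    ext p
    constructor
    · rintro ⟨p, ⟨f, hf, rfl⟩ | ⟨i, hi, rfl⟩, rfl⟩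
      · left
        refine ⟨f, List.mem_cons_of_mem _ hf, ?_⟩
        rw [he]
        refine aeval_val ν _ _ (fun t ht i hi => ?_)
        have := hS f hf t ht i hi
        rw [chg, if_neg (by omega)]
      · rw [he, aeval_X]
        by_cases h : i = n
        · left
          refine ⟨npoly u n E, List.mem_cons_self, ?_⟩
          rw [val_npoly hu, chg, if_pos h]
        · right
          refine ⟨i, ?_, ?_⟩
          · show n + 1 ≤ i
            omega
          · rw [chg, if_neg h]
    · rintro (⟨f, hf, rfl⟩ | ⟨i, hi, rfl⟩)
      · have hf' : f ∈ npoly u n E :: S.2 := hf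
        rw [List.mem_cons] at hf'
        rcases hf' with rfl | hf'
        · refine ⟨X n, Or.inr ⟨n, le_rfl, rfl⟩, ?_⟩
          rw [he, aeval_X, chg, if_pos rfl, val_npoly hu]
        · refine ⟨val ν f, Or.inl ⟨f, hf', rfl⟩, ?_⟩
          rw [he]
          refine aeval_val ν _ _ (fun t ht i hi => ?_)
          have := hS f hf' t ht i hi
          rw [chg, if_neg (by omega)]
      · have hi' : n + 1 ≤ i := hi
        refine ⟨X i, Or.inr ⟨i, by omega, rfl⟩, ?_⟩
        rw [he, aeval_X, chg, if_neg (by omega)]
  have hmap : Ideal.span (gens ν (ext u S E)) =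
      (Ideal.span (gens ν S)).map (e : MvPolynomial ℕ Qb →+* MvPolynomial ℕ Qb) := by
    rw [Ideal.map_span, ← himg]
    rfl
  exact ⟨(Ideal.quotientEquivAlg _ _ e hmap).symm⟩

theorem valid_ext {u : ℕ} {S : Sys} (hS : Valid S) {E : List (List ℕ)}
    (hE : ∀ w ∈ E, ∀ i ∈ w, i < S.1) : Valid (ext u S E) := by
  intro f hf t ht i hi
  have hf' : f ∈ npoly u S.1 E :: S.2 := hf
  show i < S.1 + 1
  rw [List.mem_cons] at hf'
  rcases hf' with rfl | hf'
  · rw [npoly, List.mem_cons] at ht
    rcases ht with rfl | ht
    · simp only [List.mem_cons, List.not_mem_nil, or_false] at hi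
      omega
    · rw [List.mem_map] at ht
      obtain ⟨q, hq, rfl⟩ := ht
      exact (hE q hq i hi).trans (Nat.lt_succ_self _)
  · have := hS f hf' t ht i hi
    omega

/-- the monomials of degree `d` in the variables `x₀, …, x₍ₙ₋₁₎` -/
def mons : ℕ → ℕ → List (List ℕ)
  | 0, _ => [[]]
  | (d + 1), n => (List.range n).flatMap (fun a => (mons d (a + 1)).map (fun w => a :: w))

theorem mem_mons {d : ℕ} : ∀ {n : ℕ} {w : List ℕ}, w ∈ mons d n → w.length = d ∧ ∀ i ∈ w, i < n := by
  induction d with
  | zero =>
    intro n w h
    rw [mons, List.mem_singleton] at h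
    subst h
    simp
  | succ d ih =>
    intro n w h
    rw [mons, List.mem_flatMap] at h
    obtain ⟨a, ha, h⟩ := h
    rw [List.mem_map] at h
    obtain ⟨v, hv, rfl⟩ := h
    rw [List.mem_range] at ha
    obtain ⟨h1, h2⟩ := ih hv
    refine ⟨by rw [List.length_cons, h1], fun i hi => ?_⟩
    rw [List.mem_cons] at hi
    rcases hi with rfl | hi
    · exact ha
    · have := h2 i hi
      omega

theorem length_mons (d : ℕ) : ∀ n : ℕ, (mons d n).length = Nat.multichoose n d := by
  induction d with
  | zero =>
    intro n
    simp [mons]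
  | succ d ih =>
    intro n
    induction n with
    | zero => simp [mons]
    | succ n ihn =>
      have h : mons (d + 1) (n + 1) = mons (d + 1) n ++ (mons d (n + 1)).map (fun w => n :: w) := by
        conv_lhs => rw [mons, List.range_succ, List.flatMap_append, ← mons]
        simp
      rw [h, List.length_append, ihn, List.length_map, ih, Nat.multichoose_succ_succ]

theorem mons_nodup (d : ℕ) : ∀ n : ℕ, (mons d n).Nodup := by
  induction d with
  | zero =>
    intro n
    simp [mons]
  | succ d ih =>
    intro n
    rw [mons, List.nodup_flatMap]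
    refine ⟨fun a _ => ?_, ?_⟩
    · refine (ih (a + 1)).map (fun w w' h => ?_)
      exact (List.cons.inj h).2
    · refine (List.nodup_range (n := n)).imp ?_
      intro b b' hb
      simp only [Function.onFun]
      rw [List.disjoint_left]
      intro q h1 h2
      rw [List.mem_map] at h1 h2
      obtain ⟨a, -, rfl⟩ := h1
      obtain ⟨a', -, h⟩ := h2
      exact hb (List.cons.inj h).1.symm

theorem multichoose_le (d : ℕ) : ∀ n : ℕ, Nat.multichoose n d ≤ n ^ d := by
  induction d with
  | zero =>
    intro n
    simp
  | succ d ih =>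
    intro n
    induction n with
    | zero => simp
    | succ n ihn =>
      rw [Nat.multichoose_succ_succ]
      have h1 := ih (n + 1)
      have h2 : n ^ d ≤ (n + 1) ^ d := Nat.pow_le_pow_left (Nat.le_succ n) d
      calc n.multichoose (d + 1) + (n + 1).multichoose d ≤ n ^ (d + 1) + (n + 1) ^ d :=
            Nat.add_le_add ihn h1
        _ ≤ (n + 1) ^ d * n + (n + 1) ^ d := by
            rw [pow_succ]
            exact Nat.add_le_add_right (Nat.mul_le_mul_right n h2) _
        _ = (n + 1) ^ (d + 1) := by ring

theorem le_multichoose (d n : ℕ) : n ^ d ≤ d.factorial * Nat.multichoose n d := by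
  induction d with
  | zero => simp
  | succ d ih =>
    rcases Nat.eq_zero_or_pos n with rfl | hn
    · simp
    · have h1 : (d + 1) * Nat.multichoose n (d + 1) = (n + d) * Nat.multichoose n d := by
        rw [Nat.multichoose_eq, Nat.multichoose_eq]
        obtain ⟨k, rfl⟩ : ∃ k, n = k + 1 := ⟨n - 1, by omega⟩
        have e1 : k + 1 + (d + 1) - 1 = (k + d) + 1 := by omega
        have e2 : k + 1 + d - 1 = k + d := by omega
        have h2 := Nat.add_one_mul_choose_eq (k + d) d
        rw [e1, e2, show k + 1 + d = k + d + 1 by omega, h2, mul_comm]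
      calc n ^ (d + 1) = n * n ^ d := by ring
        _ ≤ (n + d) * (d.factorial * Nat.multichoose n d) :=
            Nat.mul_le_mul (by omega) ih
        _ = d.factorial * ((n + d) * Nat.multichoose n d) := by ring
        _ = (d + 1).factorial * Nat.multichoose n (d + 1) := by
            rw [← h1, Nat.factorial_succ]
            ring

/-- all systems which arise by adding `m` variables, each one minus a sum of different monomials of
degree `d` in the variables before it -/
def pads (u d : ℕ) (S : Sys) : ℕ → List Sys
  | 0 => [S]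
  | (m + 1) =>
    (pads u d S m).flatMap (fun Q => (List.sublists' (mons d Q.1)).map (fun E => ext u Q E))

/-- the size: the number of the terms plus the sum of the codes of the coefficients and of the
degrees of the terms -/
def size (F : List Poly) : ℕ := (F.map (fun f => (f.map (fun t => 1 + t.1 + t.2.length)).sum)).sum

/-- `S'` is a system of `k` equations in `N` variables, with at most `N ^ d + s` terms in each
equation, of degrees at most `s + d` and with coefficients with codes at most `s + u`. -/
def Bounded (u d s N k : ℕ) (S' : Sys) : Prop :=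
  Valid S' ∧ S'.1 = N ∧ S'.2.length = k ∧
    ∀ f ∈ S'.2, f.length ≤ N ^ d + s ∧ ∀ t ∈ f, t.1 ≤ s + u ∧ t.2.length ≤ s + d

end Pool.Agent.Q107.RF
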