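import Pool.Agent.Q107.RF.Basic

/-!
The systems which arise by adding variables: their number, and their computation.
-/

set_option autoImplicit false

namespace Pool.Agent.Q107.RF

open MvPolynomial

theorem npoly_inj {u n : ℕ} {E E' : List (List ℕ)} (h : npoly u n E = npoly u n E') : E = E' := by
  rw [npoly, npoly] at h
  have h1 := (List.cons.inj h).2
  have hinj : Function.Injective (fun w : List ℕ => ((u, w) : ℕ × List ℕ)) := by
    intro w w' hq
    exact (Prod.mk.inj hq).2
  exact List.map_injective_iff.2 hinj h1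

theorem ext_inj {u : ℕ} {Q Q' : Sys} {E E' : List (List ℕ)} (h : ext u Q E = ext u Q' E') :
    Q = Q' ∧ E = E' := by
  have h1 : Q.1 + 1 = Q'.1 + 1 := congrArg Prod.fst h
  have h2 : npoly u Q.1 E :: Q.2 = npoly u Q'.1 E' :: Q'.2 := congrArg Prod.snd h
  have h3 : Q.1 = Q'.1 := by omega
  rw [List.cons.injEq, h3] at h2
  exact ⟨Prod.ext h3 h2.2, npoly_inj h2.1⟩

theorem mem_size {F : List Poly} {f : Poly} (hf : f ∈ F) :
    (f.map (fun t => 1 + t.1 + t.2.length)).sum ≤ size F :=
  List.single_le_sum (by simp) _ (List.mem_map_of_mem hf)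

theorem length_le_size {F : List Poly} {f : Poly} (hf : f ∈ F) : f.length ≤ size F := by
  refine le_trans ?_ (mem_size hf)
  clear hf
  induction f with
  | nil => simp
  | cons t f ih =>
    rw [List.length_cons, List.map_cons, List.sum_cons]
    omega

theorem term_le_size {F : List Poly} {f : Poly} (hf : f ∈ F) {t : ℕ × List ℕ} (ht : t ∈ f) :
    1 + t.1 + t.2.length ≤ size F :=
  le_trans (List.single_le_sum (by simp) _
    (List.mem_map_of_mem (f := fun t : ℕ × List ℕ => 1 + t.1 + t.2.length) ht)) (mem_size hf)

theorem bounded_self {u d : ℕ} {S : Sys} (hS : Valid S) :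
    Bounded u d (size S.2) S.1 S.2.length S := by
  refine ⟨hS, rfl, rfl, fun f hf => ⟨?_, fun t ht => ?_⟩⟩
  · have := length_le_size hf
    omega
  · have := term_le_size hf ht
    omega

theorem bounded_ext {u d s N k : ℕ} (hd : 1 ≤ d) {Q : Sys} (hQ : Bounded u d s N k Q)
    {E : List (List ℕ)} (hE : E ∈ List.sublists' (mons d Q.1)) :
    Bounded u d s (N + 1) (k + 1) (ext u Q E) := by
  obtain ⟨h1, h2, h3, h4⟩ := hQ
  rw [List.mem_sublists'] at hE
  have hE' : ∀ w ∈ E, ∀ i ∈ w, i < Q.1 := fun w hw => (mem_mons (hE.subset hw)).2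
  have hlen : E.length ≤ N ^ d := by
    have := hE.length_le
    rw [length_mons, h2] at this
    exact this.trans (multichoose_le d N)
  have hch : N ^ d < (N + 1) ^ d := Nat.pow_lt_pow_left (Nat.lt_succ_self N) (by omega)
  refine ⟨valid_ext h1 hE', ?_, ?_, ?_⟩
  · show Q.1 + 1 = N + 1
    omega
  · show (npoly u Q.1 E :: Q.2).length = k + 1
    rw [List.length_cons, h3]
  · intro f hf
    have hf' : f ∈ npoly u Q.1 E :: Q.2 := hf
    rw [List.mem_cons] at hf'
    rcases hf' with rfl | hf'
    · refine ⟨?_, fun t ht => ?_⟩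
      · rw [npoly, List.length_cons, List.length_map]
        omega
      · rw [npoly, List.mem_cons] at ht
        rcases ht with rfl | ht
        · simp only [List.length_cons, List.length_nil]
          omega
        · rw [List.mem_map] at ht
          obtain ⟨w, hw, rfl⟩ := ht
          have h7 := (mem_mons (hE.subset hw)).1
          show u ≤ s + u ∧ w.length ≤ s + d
          omega
    · obtain ⟨h5, h6⟩ := h4 f hf'
      exact ⟨by omega, h6⟩

/-- the exponent of the number of the systems: the number of the monomials of degree `d` in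
`n + i` variables, summed over `i < m` -/
def expo (d n m : ℕ) : ℕ := ∑ i ∈ Finset.range m, Nat.multichoose (n + i) d

theorem pads_spec {ν : ℕ → Qb} {u d : ℕ} (hu : ν u = 1) (hd : 1 ≤ d) {S : Sys} (hS : Valid S)
    (m : ℕ) :
    (∀ Q ∈ pads u d S m, Bounded u d (size S.2) (S.1 + m) (S.2.length + m) Q ∧
      Nonempty (Coord ν Q ≃ₐ[Qb] Coord ν S)) ∧
    (pads u d S m).Nodup ∧ (pads u d S m).length = 2 ^ expo d S.1 m := by
  induction m with
  | zero =>
    refine ⟨?_, ?_, ?_⟩
    · intro Q hQ
      rw [pads, List.mem_singleton] at hQ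
      subst hQ
      exact ⟨bounded_self hS, ⟨AlgEquiv.refl⟩⟩
    · simp [pads]
    · simp [pads, expo]
  | succ m ih =>
    obtain ⟨ih1, ih2, ih3⟩ := ih
    refine ⟨?_, ?_, ?_⟩
    · intro Q hQ
      rw [pads, List.mem_flatMap] at hQ
      obtain ⟨Q', hQ', h⟩ := hQ
      rw [List.mem_map] at h
      obtain ⟨E, hE, rfl⟩ := h
      obtain ⟨a1, ⟨a2⟩⟩ := ih1 Q' hQ'
      have hE' : ∀ w ∈ E, ∀ i ∈ w, i < Q'.1 :=
        fun w hw => (mem_mons ((List.mem_sublists'.1 hE).subset hw)).2
      obtain ⟨e⟩ := ext_iso hu a1.1 hE'
      exact ⟨bounded_ext hd a1 hE, ⟨e.trans a2⟩⟩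
    · rw [pads, List.nodup_flatMap]
      constructor
      · intro Q _
        refine (List.nodup_sublists'.2 (mons_nodup _ _)).map ?_
        intro E E' h
        exact (ext_inj h).2
      · refine List.Pairwise.imp ?_ ih2
        intro Q Q' hne
        simp only [Function.onFun]
        rw [List.disjoint_left]
        intro R h1 h2
        rw [List.mem_map] at h1 h2
        obtain ⟨E, -, rfl⟩ := h1
        obtain ⟨E', -, h⟩ := h2
        exact hne (ext_inj h).1.symm
    · rw [pads, List.length_flatMap, expo, Finset.sum_range_succ, ← expo, pow_add, ← ih3]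
      have h1 : (pads u d S m).map
          (fun Q => ((List.sublists' (mons d Q.1)).map (fun E => ext u Q E)).length) =
          (pads u d S m).map (fun _ => 2 ^ Nat.multichoose (S.1 + m) d) := by
        refine List.map_congr_left (fun Q hQ => ?_)
        rw [List.length_map, List.length_sublists', length_mons, (ih1 Q hQ).1.2.1]
      rw [h1, List.map_const', List.sum_replicate, smul_eq_mul]

/-! ### computability -/

theorem mons_prim (d : ℕ) : Primrec (mons d) := by
  induction d with
  | zero =>
    refine (Primrec.const [[]]).of_eq (fun n => ?_)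
    rw [mons]
  | succ d ih =>
    have h : Primrec (fun n : ℕ => (List.range n).flatMap
        (fun a => (mons d (a + 1)).map (fun w => a :: w))) := by
      refine Primrec.list_flatMap Primrec.list_range ?_
      refine Primrec.list_map (ih.comp (Primrec.succ.comp Primrec.snd)) ?_
      exact Primrec.list_cons.comp (Primrec.snd.comp Primrec.fst) Primrec.snd
    refine h.of_eq (fun n => ?_)
    rw [mons]

theorem sublists_prim : Primrec (fun l : List (List ℕ) => List.sublists' l) := by
  have h : Primrec₂ (fun (_ : List (List ℕ)) (q : List ℕ × List (List (List ℕ))) =>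
      q.2 ++ q.2.map (fun r => q.1 :: r)) := by
    refine Primrec.list_append.comp (Primrec.snd.comp Primrec.snd) ?_
    refine Primrec.list_map (Primrec.snd.comp Primrec.snd) ?_
    exact Primrec.list_cons.comp (Primrec.fst.comp (Primrec.snd.comp Primrec.fst)) Primrec.snd
  refine (Primrec.list_foldr Primrec.id (Primrec.const [[]]) h).of_eq (fun l => ?_)
  induction l with
  | nil => rfl
  | cons a l ih =>
    simp only [id, List.foldr_cons] at ih ⊢
    rw [ih, List.sublists'_cons]

theorem npoly_prim (u : ℕ) : Primrec₂ (npoly u) := by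
  refine Primrec.list_cons.comp ((Primrec.const u).pair
    (Primrec.list_cons.comp Primrec.fst (Primrec.const []))) ?_
  refine Primrec.list_map Primrec.snd ?_
  exact (Primrec.const u).pair Primrec.snd

theorem ext_prim (u : ℕ) : Primrec₂ (ext u) := by
  refine Primrec.pair (Primrec.succ.comp (Primrec.fst.comp Primrec.fst)) ?_
  exact Primrec.list_cons.comp ((npoly_prim u).comp (Primrec.fst.comp Primrec.fst) Primrec.snd)
    (Primrec.snd.comp Primrec.fst)

theorem pads_prim (u d : ℕ) : Primrec₂ (pads u d) := by
  have h : Primrec₂ (fun (_ : Sys × ℕ) (q : ℕ × List Sys) =>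
      q.2.flatMap (fun Q => (List.sublists' (mons d Q.1)).map (fun E => ext u Q E))) := by
    refine Primrec.list_flatMap (Primrec.snd.comp Primrec.snd) ?_
    refine Primrec.list_map
      (sublists_prim.comp ((mons_prim d).comp (Primrec.fst.comp Primrec.snd))) ?_
    exact (ext_prim u).comp (Primrec.snd.comp Primrec.fst) Primrec.snd
  refine (Primrec.nat_rec' Primrec.snd
    (Primrec.list_cons.comp Primrec.fst (Primrec.const [])) h).of_eq (fun p => ?_)
  obtain ⟨P, m⟩ := p
  induction m with
  | zero => rfl
  | succ m ih =>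
    simp only at ih ⊢
    rw [ih]
    rfl

end Pool.Agent.Q107.RF
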