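import Pool.Agent.Q107.RF.Pads
import Pool.Agent.Q33.IP.Maj

/-!
Deciding a property of varieties with few failures.
-/

set_option autoImplicit false

namespace Pool.Agent.Q107.RF

open MvPolynomial

/-- The system gives a variety: the ideal of the polynomials is prime. -/
def Variety (ν : ℕ → Qb) (S : Sys) : Prop := Valid S ∧ IsDomain (Coord ν S)

/-- The property is invariant under isomorphisms of algebras over the algebraic numbers. -/
def IsoInv (P : (A : Type) → [CommRing A] → [Algebra Qb A] → Prop) : Prop :=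
  ∀ (A B : Type) [CommRing A] [CommRing B] [Algebra Qb A] [Algebra Qb B],
    Nonempty (A ≃ₐ[Qb] B) → P A → P B

/-- The program `φ` stops at `S` and answers whether the variety given by `S` has the property. -/
def Right (ν : ℕ → Qb) (P : (A : Type) → [CommRing A] → [Algebra Qb A] → Prop)
    (φ : Sys →. Bool) (S : Sys) : Prop := ∃ b ∈ φ S, (b = true ↔ P (Coord ν S))

/-- The failures of `φ` near `S`: the systems `S'` with `m` variables and `m` equations more than
`S`, of bounded size, with a coordinate ring isomorphic to the one of `S`, at which `φ` does not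
stop or gives the wrong answer. -/
def Fails (ν : ℕ → Qb) (u d : ℕ) (P : (A : Type) → [CommRing A] → [Algebra Qb A] → Prop)
    (φ : Sys →. Bool) (S : Sys) (m : ℕ) : Set Sys :=
  {S' | Bounded u d (size S.2) (S.1 + m) (S.2.length + m) S' ∧
    Nonempty (Coord ν S' ≃ₐ[Qb] Coord ν S) ∧ ¬ Right ν P φ S'}

theorem lists_finite {α : Type} {A : Set α} (hA : A.Finite) (n : ℕ) :
    {l : List α | l.length ≤ n ∧ ∀ x ∈ l, x ∈ A}.Finite := by
  have h : {l : List α | l.length ≤ n ∧ ∀ x ∈ l, x ∈ A} ⊆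
      (fun l : List A => l.map Subtype.val) '' {l : List A | l.length ≤ n} := by
    rintro l ⟨h1, h2⟩
    refine ⟨l.attach.map (fun x => (⟨x.1, h2 x.1 x.2⟩ : A)), ?_, ?_⟩
    · show (List.map _ _).length ≤ n
      rw [List.length_map, List.length_attach]
      exact h1
    · simp only [List.map_map]
      exact List.attach_map_subtype_val l
  have : Finite A := hA
  exact ((List.finite_length_le A n).image _).subset h

theorem bounded_finite (u d s N k : ℕ) : {S' : Sys | Bounded u d s N k S'}.Finite := by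
  have h1 : {w : List ℕ | w.length ≤ s + d ∧ ∀ x ∈ w, x ∈ Set.Iio N}.Finite :=
    lists_finite (Set.finite_Iio N) _
  have h2 := (Set.finite_Iic (s + u)).prod h1
  have h3 := lists_finite (lists_finite h2 (N ^ d + s)) k
  refine ((Set.finite_singleton N).prod h3).subset ?_
  rintro ⟨n, F⟩ ⟨a1, a2, a3, a4⟩
  refine ⟨a2, le_of_eq a3, fun f hf => ⟨(a4 f hf).1, fun t ht => ⟨?_, ?_, ?_⟩⟩⟩
  · exact ((a4 f hf).2 t ht).1
  · exact ((a4 f hf).2 t ht).2
  · intro i hi
    have h := a1 f hf t ht i hi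
    have a2' : n = N := a2
    subst a2'
    exact h

theorem fails_finite (ν : ℕ → Qb) (u d : ℕ)
    (P : (A : Type) → [CommRing A] → [Algebra Qb A] → Prop) (φ : Sys →. Bool) (S : Sys) (m : ℕ) :
    (Fails ν u d P φ S m).Finite :=
  (bounded_finite u d (size S.2) (S.1 + m) (S.2.length + m)).subset (fun _ h => h.1)

theorem variety_of_iso {ν : ℕ → Qb} {S S' : Sys} (hS : Variety ν S) (hS' : Valid S')
    (e : Coord ν S' ≃ₐ[Qb] Coord ν S) : Variety ν S' := by
  have := hS.2
  exact ⟨hS', e.toRingEquiv.toMulEquiv.isDomain (Coord ν S)⟩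

/-- deciding the property -/
def Decidable' (ν : ℕ → Qb) (P : (A : Type) → [CommRing A] → [Algebra Qb A] → Prop) : Prop :=
  ∃ φ : Sys →. Bool, Partrec φ ∧ ∀ S, Variety ν S → Right ν P φ S

theorem fails_empty {ν : ℕ → Qb} (u d : ℕ)
    {P : (A : Type) → [CommRing A] → [Algebra Qb A] → Prop} {φ : Sys →. Bool}
    (h : ∀ S, Variety ν S → Right ν P φ S) {S : Sys} (hS : Variety ν S) (m : ℕ) :
    Fails ν u d P φ S m = ∅ := by
  rw [Set.eq_empty_iff_forall_notMem]
  rintro S' ⟨h1, ⟨e⟩, h3⟩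
  exact h3 (h S' (variety_of_iso hS h1.1 e))

/-- few failures suffice -/
theorem of_few {ν : ℕ → Qb} {u d : ℕ} (hu : ν u = 1) (hd : 1 ≤ d)
    {P : (A : Type) → [CommRing A] → [Algebra Qb A] → Prop} (hP : IsoInv P)
    {φ : Sys →. Bool} {h : Sys → ℕ} (hφ : Partrec φ) (hh : Computable h)
    (hw : ∀ S, Variety ν S → 2 * (Fails ν u d P φ S (h S)).ncard < 2 ^ expo d S.1 (h S)) :
    Decidable' ν P := by
  have hv : Computable (fun S : Sys => pads u d S (h S)) :=
    (pads_prim u d).to_comp.comp Computable.id hh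
  obtain ⟨ψ, hψ, hmaj⟩ := Pool.Agent.Q33.IP.majority hv hφ
  refine ⟨ψ, hψ, fun S hS => ?_⟩
  classical
  refine ⟨decide (P (Coord ν S)), ?_, by simp⟩
  refine hmaj S _ (fun p hp => ?_)
  set m := h S with hm
  obtain ⟨a1, a2, a3⟩ := pads_spec hu hd hS.1 m
  have c2 : ((pads u d S m).filter p).Nodup := a2.filter _
  have c3 : ((((pads u d S m).filter p).toFinset : Finset Sys) : Set Sys) ⊆
      Fails ν u d P φ S m := by
    intro L hL
    rw [Finset.mem_coe, List.mem_toFinset, List.mem_filter] at hL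
    obtain ⟨hL1, hL2⟩ := hL
    obtain ⟨b1, ⟨e⟩⟩ := a1 L hL1
    refine ⟨b1, ⟨e⟩, ?_⟩
    rintro ⟨b, hb, hb'⟩
    refine hp L hL1 hL2 ?_
    have hiff : P (Coord ν L) ↔ P (Coord ν S) := ⟨hP _ _ ⟨e⟩, hP _ _ ⟨e.symm⟩⟩
    rw [hiff] at hb'
    have e' : decide (P (Coord ν S)) = b := by
      by_cases hb2 : P (Coord ν S)
      · rw [hb'.2 hb2]
        simpa using hb2
      · have : b = false := by
          by_contra h3
          exact hb2 (hb'.1 (by simpa using h3))
        rw [this]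
        simpa using hb2
    rw [e']
    exact hb
  have c4 := Set.ncard_le_ncard c3 (fails_finite ν u d P φ S m)
  rw [Set.ncard_coe_finset, List.toFinset_card_of_nodup c2] at c4
  have c5 := hw S hS
  rw [← hm] at c5
  rw [a3]
  omega

/-! ### the exponents -/

theorem expo_large {d n m : ℕ} (h : 2 ^ (d + 2) * d.factorial ≤ m) :
    (n + m) ^ d + 1 < expo d n m := by
  have hm : 4 ≤ m := by
    refine le_trans ?_ h
    have h1 : 1 ≤ d.factorial := Nat.factorial_pos d
    have h2 : 1 ≤ 2 ^ d := Nat.one_le_two_pow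
    calc 4 = 2 ^ 2 * 1 * 1 := by norm_num
      _ ≤ 2 ^ 2 * 2 ^ d * d.factorial := by
          exact Nat.mul_le_mul (Nat.mul_le_mul_left _ h2) h1
      _ = 2 ^ (d + 2) * d.factorial := by ring
  -- the second half of the sum
  set k := m / 2 with hk
  have h3 : k * (n + m) ^ d ≤ 2 ^ d * d.factorial * expo d n m := by
    have h4 : ∀ i ∈ Finset.Ico (m - k) m,
        (n + m) ^ d ≤ 2 ^ d * (d.factorial * Nat.multichoose (n + i) d) := by
      intro i hi
      rw [Finset.mem_Ico] at hi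
      calc (n + m) ^ d ≤ (2 * (n + i)) ^ d := Nat.pow_le_pow_left (by omega) d
        _ = 2 ^ d * (n + i) ^ d := by rw [mul_pow]
        _ ≤ 2 ^ d * (d.factorial * Nat.multichoose (n + i) d) :=
            Nat.mul_le_mul_left _ (le_multichoose d (n + i))
    have h5 := Finset.sum_le_sum h4
    rw [Finset.sum_const, Nat.card_Ico, smul_eq_mul, show m - (m - k) = k by omega] at h5
    refine h5.trans ?_
    rw [← Finset.mul_sum, ← Finset.mul_sum, ← mul_assoc, expo]
    refine Nat.mul_le_mul_left _ (Finset.sum_le_sum_of_subset ?_)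
    intro i hi
    rw [Finset.mem_Ico] at hi
    exact Finset.mem_range.2 hi.2
  have h6 : 2 * (2 ^ d * d.factorial) ≤ k := by
    have h7 : 2 ^ (d + 2) * d.factorial = 2 * (2 * (2 ^ d * d.factorial)) := by ring
    omega
  have h8 : 0 < 2 ^ d * d.factorial := Nat.mul_pos (by positivity) (Nat.factorial_pos d)
  have h9 : 2 * (n + m) ^ d ≤ expo d n m := by
    refine Nat.le_of_mul_le_mul_left ?_ h8
    calc 2 ^ d * d.factorial * (2 * (n + m) ^ d) = 2 * (2 ^ d * d.factorial) * (n + m) ^ d := by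
          ring
      _ ≤ k * (n + m) ^ d := Nat.mul_le_mul_right _ h6
      _ ≤ _ := h3
  rcases Nat.eq_zero_or_pos d with rfl | hd
  · -- degree zero
    have h10 : expo 0 n m = m := by simp [expo]
    rw [h10, pow_zero]
    omega
  · have h11 : 2 ≤ (n + m) ^ d := by
      calc 2 ≤ (n + m) ^ 1 := by rw [pow_one]; omega
        _ ≤ (n + m) ^ d := Nat.pow_le_pow_right (by omega) hd
    omega

/-- The three forms are equivalent. -/
theorem tfae {ν : ℕ → Qb} {u d : ℕ} (hu : ν u = 1) (hd : 1 ≤ d)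
    {P : (A : Type) → [CommRing A] → [Algebra Qb A] → Prop} (hP : IsoInv P) :
    (Decidable' ν P ↔ ∃ (φ : Sys →. Bool) (h : Sys → ℕ), Partrec φ ∧ Computable h ∧
      ∀ S, Variety ν S → 2 * (Fails ν u d P φ S (h S)).ncard < 2 ^ expo d S.1 (h S)) ∧
    (Decidable' ν P ↔ ∃ (φ : Sys →. Bool) (h : Sys → ℕ), Partrec φ ∧ Computable h ∧
      ∀ S, Variety ν S → 2 ^ (d + 2) * d.factorial ≤ h S ∧
        (Fails ν u d P φ S (h S)).ncard ≤ 2 ^ ((S.1 + h S) ^ d)) := by
  refine ⟨⟨?_, ?_⟩, ⟨?_, ?_⟩⟩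
  · rintro ⟨φ, hφ, h⟩
    refine ⟨φ, fun _ => 0, hφ, Computable.const 0, fun S hS => ?_⟩
    rw [fails_empty u d h hS, Set.ncard_empty, mul_zero]
    positivity
  · rintro ⟨φ, h, hφ, hh, hw⟩
    exact of_few hu hd hP hφ hh hw
  · rintro ⟨φ, hφ, h⟩
    refine ⟨φ, fun _ => 2 ^ (d + 2) * d.factorial, hφ, Computable.const _,
      fun S hS => ⟨le_rfl, ?_⟩⟩
    rw [fails_empty u d h hS, Set.ncard_empty]
    exact Nat.zero_le _
  · rintro ⟨φ, h, hφ, hh, hw⟩
    refine of_few hu hd hP hφ hh (fun S hS => ?_)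
    obtain ⟨h1, h2⟩ := hw S hS
    calc 2 * (Fails ν u d P φ S (h S)).ncard ≤ 2 * 2 ^ ((S.1 + h S) ^ d) :=
          Nat.mul_le_mul_left 2 h2
      _ = 2 ^ ((S.1 + h S) ^ d + 1) := (pow_succ' 2 _).symm
      _ < 2 ^ expo d S.1 (h S) := Nat.pow_lt_pow_right (by norm_num) (expo_large h1)

/-! ### rationality -/

/-- the field (ring) of fractions is a field of rational functions -/
def Rational (A : Type) [CommRing A] [Algebra Qb A] : Prop :=
  ∃ d : ℕ, Nonempty (FractionRing A ≃ₐ[Qb] FractionRing (MvPolynomial (Fin d) Qb))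

/-- the field (ring) of fractions embeds in a field of rational functions -/
def Unirational (A : Type) [CommRing A] [Algebra Qb A] : Prop :=
  ∃ d : ℕ, Nonempty (FractionRing A →ₐ[Qb] FractionRing (MvPolynomial (Fin d) Qb))

theorem frac_equiv {A B : Type} [CommRing A] [CommRing B] [Algebra Qb A] [Algebra Qb B]
    (e : A ≃ₐ[Qb] B) : Nonempty (FractionRing A ≃ₐ[Qb] FractionRing B) := by
  refine ⟨AlgEquiv.ofRingEquiv (f := IsFractionRing.ringEquivOfRingEquiv e.toRingEquiv) ?_⟩
  intro r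
  rw [IsScalarTower.algebraMap_apply Qb A (FractionRing A),
    IsFractionRing.ringEquivOfRingEquiv_algebraMap,
    IsScalarTower.algebraMap_apply Qb B (FractionRing B)]
  congr 1
  exact e.commutes r

theorem rational_inv : IsoInv (fun A [CommRing A] [Algebra Qb A] => Rational A) := by
  rintro A B _ _ _ _ ⟨e⟩ ⟨d, ⟨g⟩⟩
  obtain ⟨f⟩ := frac_equiv e
  exact ⟨d, ⟨f.symm.trans g⟩⟩

theorem unirational_inv : IsoInv (fun A [CommRing A] [Algebra Qb A] => Unirational A) := by
  rintro A B _ _ _ _ ⟨e⟩ ⟨d, ⟨g⟩⟩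
  obtain ⟨f⟩ := frac_equiv e
  exact ⟨d, ⟨g.comp f.symm.toAlgHom⟩⟩

end Pool.Agent.Q107.RF
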